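import Mathlib

namespace Pool.Agent.Results.MP_a53ef7_an.Ramp

open MeasureTheory Set Filter Topology Real

/-- the truncated gap integral for `m = 1`. -/
noncomputable def G {N : Type} [MetricSpace N] (p t : ℝ) (f : ℝ → N) (Ω : Set ℝ) : ENNReal :=
  ∫⁻ z in {z : ℝ × ℝ | z.1 ∈ Ω ∧ z.2 ∈ Ω ∧ t ≤ dist (f z.2) (f z.1)},
    ENNReal.ofReal ((dist (f z.2) (f z.1) - t) ^ p / |z.2 - z.1| ^ 2)

lemma shear {c : ℝ → ENNReal} {lo hi : ℝ → ℝ} (hc : Measurable c) (hl : Measurable lo)
    (hh : Measurable hi) :
    ∫⁻ z : ℝ × ℝ, (Icc (lo (z.2 - z.1)) (hi (z.2 - z.1))).indicator (fun _ => c (z.2 - z.1)) z.1 =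
      ∫⁻ r, c r * ENNReal.ofReal (hi r - lo r) := by
  have hm : Measurable fun z : ℝ × ℝ => (Icc (lo z.2) (hi z.2)).indicator (fun _ => c z.2) z.1 := by
    simp only [indicator, mem_Icc]
    exact Measurable.ite ((measurableSet_le (by fun_prop) measurable_fst).inter
      (measurableSet_le measurable_fst (by fun_prop))) (by fun_prop) measurable_const
  have := (measurePreserving_prod_sub (volume : Measure ℝ) (volume : Measure ℝ)).lintegral_comp hm
  rw [Measure.volume_eq_prod, this, lintegral_prod_symm _ hm.aemeasurable]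
  simp [lintegral_indicator]

lemma logint {a b : ℝ} (ha : 0 < a) (hab : a ≤ b) :
    ∫⁻ r in Icc a b, ENNReal.ofReal r⁻¹ = ENNReal.ofReal (log (b / a)) := by
  rw [← ofReal_integral_eq_lintegral_ofReal, integral_Icc_eq_integral_Ioc,
    ← intervalIntegral.integral_of_le hab, integral_inv_of_pos ha (ha.trans_le hab)]
  · exact (continuousOn_inv₀.mono fun x hx => (ha.trans_le hx.1).ne').integrableOn_Icc
  · filter_upwards [ae_restrict_mem measurableSet_Icc] with x hx
    exact inv_nonneg.2 (ha.trans_le hx.1).le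

theorem result {N : Type} [MetricSpace N] (γ : ℝ → N) (K : NNReal) (hγ : LipschitzWith K γ)
    (h01 : γ 0 ≠ γ 1) (p : ℝ) (hp0 : 0 ≤ p) (hp1 : p < 1) (C : ℝ) :
    ∃ (Ω : Set ℝ) (f : ℝ → N) (δ ε : ℝ), Convex ℝ Ω ∧ Continuous f ∧ 0 < δ ∧ δ < ε ∧
      ENNReal.ofReal (C * (δ / ε) ^ (1 - p)) * G p δ f Ω < G p ε f Ω := by
  obtain ⟨ε, hε, ha⟩ : ∃ ε : ℝ, 0 < ε ∧ dist (γ 1) (γ 0) = 2 * ε :=
    ⟨dist (γ 1) (γ 0) / 2, half_pos (dist_pos.2 h01.symm), by ring⟩
  have hK : (0 : ℝ) < K := by
    have := hγ.dist_le_mul 1 0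
    rw [ha] at this
    simp at this
    linarith
  have hβ : 0 < ε ^ p := by positivity
  obtain ⟨δ, hθ, hδ, hδε⟩ : ∃ δ : ℝ, |C| * (δ / ε) ^ (1 - p) * K ^ p * 6 < ε ^ p / 4 ∧
      δ ∈ Ioo 0 ε := by
    have : ContinuousAt (fun δ : ℝ => |C| * (δ / ε) ^ (1 - p) * K ^ p * 6) 0 :=
      (((continuousAt_id.div_const ε).rpow_const (Or.inr (by linarith))).const_mul _).mul_const _
        |>.mul_const _
    have h := this.eventually (gt_mem_nhds (a := ε ^ p / 4) (by
      simp only [zero_div, zero_rpow (show 1 - p ≠ 0 by linarith)]; simpa using hβ))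
    exact ((h.filter_mono nhdsWithin_le_nhds).and (Ioo_mem_nhdsGT hε)).exists
  obtain ⟨η, hη, hηδ⟩ : ∃ η : ℝ, 0 < η ∧ δ = K * η := ⟨δ / K, by positivity, by field_simp⟩
  obtain ⟨l, hl⟩ : ∃ l : ℝ, l = (η ^ 2)⁻¹ + log 4 + 1 := ⟨_, rfl⟩
  have hl4 : 0 ≤ log 4 := log_nonneg (by norm_num)
  have hl0 : 0 < l := by rw [hl]; positivity
  obtain ⟨L, hL⟩ : ∃ L : ℝ, L = 2 * exp l := ⟨_, rfl⟩
  have hL2 : 2 ≤ L := by rw [hL]; linarith [add_one_le_exp l]
  obtain ⟨q, hq, q0, q1, q2, q3⟩ : ∃ q : ℝ → ℝ, Continuous q ∧ (∀ x, x ≤ 0 → q x = 0) ∧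
      (∀ x, 1 ≤ x → q x = 1) ∧ (∀ x y, |q x - q y| ≤ |x - y|) ∧ ∀ x y, |q x - q y| ≤ 1 := by
    refine ⟨fun x => max (min x 1) 0, by fun_prop, fun x hx => ?_, fun x hx => ?_, fun x y => ?_,
      fun x y => ?_⟩
    · exact max_eq_right ((min_le_left _ _).trans hx)
    · simp [min_eq_right hx]
    · exact (abs_max_sub_max_le_abs _ _ _).trans (by simpa using abs_min_sub_min_le_max x 1 y 1)
    · have h : ∀ x : ℝ, 0 ≤ max (min x 1) 0 ∧ max (min x 1) 0 ≤ 1 := fun x =>
        ⟨le_max_right _ _, max_le (min_le_right _ _) zero_le_one⟩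
      rw [abs_le]; constructor <;> linarith [h x, h y]
  refine ⟨Icc (-L) L, γ ∘ q, δ, ε, convex_Icc _ _, hγ.continuous.comp hq, hδ, hδε, ?_⟩
  have hm : ∀ t, MeasurableSet {z : ℝ × ℝ | z.1 ∈ Icc (-L) L ∧ z.2 ∈ Icc (-L) L ∧
      t ≤ dist ((γ ∘ q) z.2) ((γ ∘ q) z.1)} := fun t =>
    (measurable_fst measurableSet_Icc).inter ((measurable_snd measurableSet_Icc).inter
      (isClosed_le continuous_const (((hγ.continuous.comp hq).comp continuous_snd).dist
        ((hγ.continuous.comp hq).comp continuous_fst))).measurableSet)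
  have low : ENNReal.ofReal (ε ^ p / 2 * l) ≤ G p ε (γ ∘ q) (Icc (-L) L) := by
    calc _ = ENNReal.ofReal (ε ^ p / 2) * ∫⁻ r in Icc 2 L, ENNReal.ofReal r⁻¹ := by
          rw [logint two_pos hL2, ← ENNReal.ofReal_mul (by positivity), hL,
            mul_div_cancel_left₀ _ two_ne_zero, log_exp]
      _ ≤ ∫⁻ r, (Icc 2 L).indicator (fun r => ENNReal.ofReal (ε ^ p / r ^ 2)) r *
            ENNReal.ofReal (0 - (1 - r)) := by
          rw [← lintegral_const_mul' _ _ ENNReal.ofReal_ne_top,
            ← lintegral_indicator measurableSet_Icc]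
          refine lintegral_mono fun r => ?_
          by_cases hr : r ∈ Icc 2 L
          · simp only [indicator_of_mem hr]
            have := hr.1
            rw [← ENNReal.ofReal_mul (by positivity), ← ENNReal.ofReal_mul (by positivity)]
            refine ENNReal.ofReal_le_ofReal ?_
            rw [div_mul_eq_mul_div _ (r ^ 2), le_div_iff₀ (by positivity)]
            have e : ε ^ p / 2 * r⁻¹ * r ^ 2 = ε ^ p * (r / 2) := by field_simp
            rw [e]
            exact mul_le_mul_of_nonneg_left (by linarith) hβ.le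
          · simp [indicator_of_notMem hr]
      _ ≤ _ := by
          rw [← shear (Measurable.indicator (by fun_prop) measurableSet_Icc) (by fun_prop)
            (by fun_prop), G, ← lintegral_indicator (hm ε)]
          refine lintegral_mono fun z => ?_
          by_cases h1 : z.1 ∈ Icc (1 - (z.2 - z.1)) 0
          swap
          · simp [indicator_of_notMem h1]
          by_cases h2 : z.2 - z.1 ∈ Icc 2 L
          swap
          · simp [indicator_of_notMem h2]
          have hd : dist ((γ ∘ q) z.2) ((γ ∘ q) z.1) = 2 * ε := by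
            simp only [Function.comp, q0 _ h1.2, q1 z.2 (by linarith [h1.1]), ha]
          rw [indicator_of_mem h1, indicator_of_mem h2, indicator_of_mem, hd, sq_abs,
            show 2 * ε - ε = ε by ring]
          refine ⟨⟨?_, ?_⟩, ⟨?_, ?_⟩, ?_⟩ <;> linarith [h1.1, h1.2, h2.1, h2.2]
  have up : G p δ (γ ∘ q) (Icc (-L) L) ≤ ENNReal.ofReal (K ^ p * 6 * (2 * l - 1)) := by
    calc _ ≤ ∫⁻ r, (abs ⁻¹' Icc η (2 * L)).indicator (fun r => ENNReal.ofReal (K ^ p / r ^ 2)) r *
            ENNReal.ofReal ((1 + |r|) - (-|r|)) := by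
          rw [← shear (Measurable.indicator (by fun_prop) (continuous_abs.measurable
            measurableSet_Icc)) (by fun_prop) (by fun_prop), G, ← lintegral_indicator (hm δ)]
          refine lintegral_mono fun z => indicator_apply_le' (fun hz => ?_) fun _ => zero_le
          obtain ⟨a1, a2, a3⟩ := hz
          have b1 := hγ.dist_le_mul (q z.2) (q z.1)
          rw [Real.dist_eq] at b1
          have b2 := mul_le_mul_of_nonneg_left (q2 z.2 z.1) hK.le
          have b3 := mul_le_mul_of_nonneg_left (q3 z.2 z.1) hK.le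
          simp only [Function.comp] at a3 ⊢
          have b4 : q z.2 ≠ q z.1 := fun h => by rw [h, dist_self] at a3; linarith
          have b5 := le_abs_self (z.2 - z.1)
          have b6 := neg_abs_le (z.2 - z.1)
          have b7 := abs_nonneg (z.2 - z.1)
          rw [indicator_of_mem, indicator_of_mem, sq_abs]
          · exact ENNReal.ofReal_le_ofReal (div_le_div_of_nonneg_right
              (rpow_le_rpow (by linarith) (by linarith) hp0) (sq_nonneg _))
          · refine ⟨le_of_mul_le_mul_left (by linarith) hK, abs_le.2 ⟨?_, ?_⟩⟩ <;>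
              linarith [a1.1, a1.2, a2.1, a2.2]
          · constructor
            · by_contra h
              exact b4 ((q0 _ (by linarith)).trans (q0 _ (by linarith)).symm)
            · by_contra h
              exact b4 ((q1 _ (by linarith)).trans (q1 _ (by linarith)).symm)
      _ ≤ ∫⁻ r, ENNReal.ofReal (K ^ p * 3) *
            ((Icc (-1) 1).indicator (fun _ => ENNReal.ofReal (η ^ 2)⁻¹) r +
            (Icc 1 (2 * L)).indicator (fun r => ENNReal.ofReal r⁻¹) r +
            (Icc 1 (2 * L)).indicator (fun r => ENNReal.ofReal r⁻¹) (-r)) := by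
          refine lintegral_mono fun r => ?_
          by_cases hr : r ∈ abs ⁻¹' Icc η (2 * L)
          swap
          · rw [indicator_of_notMem hr, zero_mul]; exact zero_le
          have hr0 : 0 < |r| := hη.trans_le hr.1
          have key : ∀ b : ℝ, (1 + 2 * |r|) ≤ 3 * b * |r| ^ 2 → ENNReal.ofReal (K ^ p / r ^ 2) *
              ENNReal.ofReal ((1 + |r|) - (-|r|)) ≤
                ENNReal.ofReal (K ^ p * 3) * ENNReal.ofReal b := fun b hb => by
            rw [← ENNReal.ofReal_mul (by positivity), ← ENNReal.ofReal_mul (by positivity)]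
            refine ENNReal.ofReal_le_ofReal ?_
            rw [← sq_abs r, div_mul_eq_mul_div, div_le_iff₀ (by positivity)]
            have : (0 : ℝ) < K ^ p := by positivity
            nlinarith
          simp only [indicator_of_mem hr]
          have k2 : 1 ≤ |r| → 1 + 2 * |r| ≤ 3 * |r|⁻¹ * |r| ^ 2 := fun h => by
            have : 3 * |r|⁻¹ * |r| ^ 2 = 3 * |r| := by field_simp
            linarith
          rcases le_total |r| 1 with h | h
          · refine (key (η ^ 2)⁻¹ ?_).trans (mul_le_mul_right ?_ _)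
            · have : 1 ≤ (η ^ 2)⁻¹ * |r| ^ 2 := by
                rw [← div_eq_inv_mul, one_le_div (by positivity)]
                exact pow_le_pow_left₀ hη.le hr.1 2
              linarith
            · rw [indicator_of_mem (show r ∈ Icc (-1) 1 from abs_le.1 h), add_assoc]
              exact le_self_add
          · refine (key _ (k2 h)).trans (mul_le_mul_right ?_ _)
            rcases abs_cases r with h' | h'
            · rw [indicator_of_mem (show r ∈ Icc 1 (2 * L) from h'.1 ▸ ⟨h, hr.2⟩), h'.1]
              exact le_add_self.trans le_self_add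
            · rw [indicator_of_mem (show -r ∈ Icc 1 (2 * L) from h'.1 ▸ ⟨h, hr.2⟩), h'.1]
              exact le_add_self
      _ ≤ _ := by
          have m1 : Measurable ((Icc 1 (2 * L)).indicator fun r : ℝ => ENNReal.ofReal r⁻¹) :=
            Measurable.indicator (by fun_prop) measurableSet_Icc
          have m2 : Measurable fun r : ℝ =>
              (Icc 1 (2 * L)).indicator (fun r : ℝ => ENNReal.ofReal r⁻¹) (-r) :=
            m1.comp measurable_neg
          rw [lintegral_const_mul' _ _ ENNReal.ofReal_ne_top, lintegral_add_right _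
            m2, lintegral_add_right _ m1, lintegral_neg_eq_self
            ((Icc 1 (2 * L)).indicator fun r : ℝ => ENNReal.ofReal r⁻¹),
            lintegral_indicator measurableSet_Icc, lintegral_indicator measurableSet_Icc,
            logint one_pos (by linarith), setLIntegral_const, Real.volume_Icc,
            ← ENNReal.ofReal_mul (by positivity)]
          have e : log (2 * L / 1) = log 4 + l := by
            rw [hL, div_one, ← mul_assoc, log_mul (by norm_num) (exp_pos _).ne', log_exp]
            norm_num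
          rw [e, ← ENNReal.ofReal_add (by positivity) (by positivity),
            ← ENNReal.ofReal_add (by positivity) (by positivity),
            ← ENNReal.ofReal_mul (by positivity)]
          refine ENNReal.ofReal_le_ofReal (le_of_eq ?_)
          rw [hl]; ring
  refine lt_of_le_of_lt (mul_le_mul' (ENNReal.ofReal_le_ofReal (mul_le_mul_of_nonneg_right
    (le_abs_self C) (by positivity))) up) (lt_of_lt_of_le ?_ low)
  rw [← ENNReal.ofReal_mul (by positivity), ENNReal.ofReal_lt_ofReal_iff (by positivity)]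
  have h1 : 0 < 2 * l - 1 := by
    have : 0 < (η ^ 2)⁻¹ := by positivity
    linarith
  nlinarith [mul_lt_mul_of_pos_right hθ h1]

end Pool.Agent.Results.MP_a53ef7_an.Ramp
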